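import Mathlib

/-!
# Dihedral 2-groups of order at least 32 are never direct factors of unit groups

For `K ≥ 4` let `D` be the dihedral group of order `2 ^ (K + 1) ≥ 32`.  We prove that for every
finite `2`-group `H` and every finite ring `R` (associative, with identity) the unit group of `R` is
not isomorphic to `D × H`.  In particular `D` is a nonabelian `2`-group which is not realizable and
does not become realizable after multiplication by any `2`-group.

Outline.  Let `e` be the central idempotent of `R` which cuts out the `2`-primary part, let `U`, `g`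
be units with `U ^ (2 ^ K) = 1`, `g ^ 2 = 1`, `g U g⁻¹ = U⁻¹` that generate the factor `D`.  Every
unit of `R` is the product of an element of `D` and of an element that centralizes `D`.  Applied to
the unit `1 + 2 e g` this gives `2 e (U ^ 2 - 1) = 0`; applied to the unit `1 + e (U + U ^ 3)` it
gives `e (U ^ (2 j) - 1) (1 + U ^ 2 + U ^ 3) = e (U ^ 2 - 1) ^ 3` for some `j`.  Together these
relations force `e (U ^ 2 - 1) ^ 3 = 0`, hence `U ^ 8 = 1`.
-/

open Polynomial

namespace Pool.Agent.Results.MP_c51eea_al.DihedralNoFactor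

universe u v

/-- Powers of `1 + y` when `2 y = 0`. -/
theorem one_add_pow {T : Type u} [CommRing T] {y : T} (hy : 2 * y = 0) (i : ℕ) :
    (1 + y) ^ (2 ^ i) = 1 + y ^ (2 ^ i) := by
  induction i with
  | zero => simp
  | succ i ih =>
    have h2y : 2 * y ^ (2 ^ i) = 0 := by
      obtain ⟨k, hk⟩ : ∃ k, 2 ^ i = k + 1 := ⟨2 ^ i - 1, by
        have : 0 < 2 ^ i := by positivity
        omega⟩
      rw [hk, pow_succ, mul_comm (y ^ k) y, ← mul_assoc, hy, zero_mul]
    rw [pow_succ, pow_mul, ih, pow_mul]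
    linear_combination h2y

theorem nil_y {T : Type u} [CommRing T] (U : T) (K : ℕ)
    (hy : 2 * (U ^ 2 - 1) = 0) (hU : U ^ (2 ^ (K + 1)) = 1) : IsNilpotent (U ^ 2 - 1) := by
  refine ⟨2 ^ K, ?_⟩
  have h1 := one_add_pow hy K
  rw [add_sub_cancel, ← pow_mul, ← pow_succ', hU] at h1
  linear_combination -h1

theorem nil_x {T : Type u} [CommRing T] (U : T) (K : ℕ) (h2 : IsNilpotent (2 : T))
    (hy : 2 * (U ^ 2 - 1) = 0) (hU : U ^ (2 ^ (K + 1)) = 1) : IsNilpotent (U - 1) := by
  have h1 : (U - 1) ^ 2 = (U ^ 2 - 1) - 2 * (U - 1) := by ring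
  have h3 : IsNilpotent ((U - 1) ^ 2) := by
    rw [h1]
    exact (Commute.all _ _).isNilpotent_sub (nil_y U K hy hU)
      ((Commute.all _ _).isNilpotent_mul_right h2)
  obtain ⟨k, hk⟩ := h3
  exact ⟨2 * k, by rw [pow_mul, hk]⟩

/-- The commutative computation. -/
theorem comm_core {T : Type u} [CommRing T] (U : T) (K j : ℕ) (h2 : IsNilpotent (2 : T))
    (hy : 2 * (U ^ 2 - 1) = 0) (hU : U ^ (2 ^ (K + 1)) = 1)
    (h : (U ^ (2 * j) - 1) * (1 + U ^ 2 + U ^ 3) = (U ^ 2 - 1) ^ 3) : (U ^ 2 - 1) ^ 3 = 0 := by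
  set y := U ^ 2 - 1 with hydef
  have hU2 : U ^ 2 = 1 + y := by rw [hydef]; ring
  have hynil : IsNilpotent y := nil_y U K hy hU
  have hxnil : IsNilpotent (U - 1) := nil_x U K h2 hy hU
  -- the unit `1 + U ^ 2 + U ^ 3`
  have hw : IsUnit (1 + U ^ 2 + U ^ 3) := by
    have h1 : 1 + U ^ 2 + U ^ 3 = 1 + (2 + y + (U - 1) * (U ^ 2 + U + 1)) := by
      rw [hydef]; ring
    rw [h1]
    apply IsNilpotent.isUnit_one_add
    exact (Commute.all _ _).isNilpotent_add ((Commute.all _ _).isNilpotent_add h2 hynil)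
      ((Commute.all _ _).isNilpotent_mul_right hxnil)
  -- geometric sums
  have hgeom : ∀ m : ℕ, ∃ s : T, (1 + y) ^ m - 1 = y * ((m : T) + y * s) := by
    intro m
    induction m with
    | zero => exact ⟨0, by simp⟩
    | succ m ih =>
      obtain ⟨s, hs⟩ := ih
      refine ⟨(m : T) + s + y * s, ?_⟩
      rw [pow_succ]
      have : (1 + y) ^ m = 1 + y * ((m : T) + y * s) := by rw [← hs]; ring
      rw [this]
      push_cast
      ring
  have hodd : ∀ l : ℕ, ∃ q : T, IsUnit q ∧ (1 + y) ^ (2 * l + 1) - 1 = y * q := by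
    intro l
    obtain ⟨s, hs⟩ := hgeom (2 * l + 1)
    refine ⟨_, ?_, hs⟩
    have h1 : (((2 * l + 1 : ℕ) : T) + y * s) = 1 + (2 * (l : T) + y * s) := by push_cast; ring
    rw [h1]
    apply IsNilpotent.isUnit_one_add
    exact (Commute.all _ _).isNilpotent_add ((Commute.all _ _).isNilpotent_mul_right h2)
      ((Commute.all _ _).isNilpotent_mul_right hynil)
  have hsq : ∀ m : ℕ, (1 + y) ^ (2 * m) - 1 = ((1 + y) ^ m - 1) ^ 2 := by
    intro m
    obtain ⟨s, hs⟩ := hgeom m
    have h3 : 2 * ((1 + y) ^ m - 1) = 0 := by rw [hs, ← mul_assoc, hy, zero_mul]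
    rw [mul_comm 2 m, pow_mul]
    linear_combination h3
  rw [pow_mul, hU2] at h
  have hw' : IsUnit (1 + (1 + y) + U ^ 3) := by rw [← hU2]; exact hw
  rcases Nat.even_or_odd' j with ⟨l, hl | hl⟩
  · rcases Nat.even_or_odd' l with ⟨l', hl' | hl'⟩
    · -- `4 ∣ j`
      obtain ⟨s, hs⟩ := hgeom l'
      rw [hl, hl', hsq, hsq, hs] at h
      set w := ((l' : T) + y * s)
      have h5 : y ^ 3 * (1 - y * (w ^ 4 * (1 + (1 + y) + U ^ 3))) = 0 := by
        linear_combination -h
      have h6 : IsUnit (1 - y * (w ^ 4 * (1 + (1 + y) + U ^ 3))) :=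
        IsNilpotent.isUnit_one_sub ((Commute.all _ _).isNilpotent_mul_right hynil)
      exact h6.mul_left_eq_zero.mp h5
    · -- `j = 2 * odd`
      obtain ⟨q, hq, hq2⟩ := hodd l'
      rw [hl, hl', hsq, hq2] at h
      have h5 : y ^ 2 * (q ^ 2 * (1 + (1 + y) + U ^ 3) - y) = 0 := by
        linear_combination h
      have h6 : IsUnit (q ^ 2 * (1 + (1 + y) + U ^ 3) - y) := by
        rw [sub_eq_add_neg]
        exact (hynil.neg).isUnit_add_left_of_commute ((hq.pow 2).mul hw') (Commute.all _ _)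
      have h7 := h6.mul_left_eq_zero.mp h5
      rw [pow_succ, h7, zero_mul]
  · obtain ⟨q, hq, hq2⟩ := hodd l
    rw [hl, hq2] at h
    have h5 : y * (q * (1 + (1 + y) + U ^ 3) - y ^ 2) = 0 := by
      linear_combination h
    have h6 : IsUnit (q * (1 + (1 + y) + U ^ 3) - y ^ 2) := by
      rw [sub_eq_add_neg]
      exact ((hynil.pow_of_pos two_ne_zero).neg).isUnit_add_left_of_commute (hq.mul hw')
        (Commute.all _ _)
    have h7 := h6.mul_left_eq_zero.mp h5
    rw [h7]; ring

/-- In a ring whose units all have `2`-power order, the part of odd characteristic has no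
square-zero elements. -/
theorem sq_zero {R : Type u} [Ring R] (h2 : ∀ v : Rˣ, ∃ s : ℕ, v ^ (2 ^ s) = 1) {m : ℕ}
    (hm : Odd m) {z : R} (hz : z * z = 0) (hmz : (m : R) * z = 0) : z = 0 := by
  have hnil : IsNilpotent z := ⟨2, by rw [pow_two, hz]⟩
  obtain ⟨v, hv⟩ := hnil.isUnit_one_add
  obtain ⟨s, hs⟩ := h2 v
  have hpow : ∀ k : ℕ, (1 + z) ^ k = 1 + (k : R) * z := by
    intro k
    induction k with
    | zero => simp
    | succ k ih =>
      rw [pow_succ, ih]
      push_cast
      rw [add_mul, one_mul, mul_add, mul_one, mul_assoc, hz]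
      noncomm_ring
  have h3 : ((2 ^ s : ℕ) : R) * z = 0 := by
    have h4 := congrArg (fun x : Rˣ => (x : R)) hs
    simp only [Units.val_pow_eq_pow_val, Units.val_one, hv, hpow] at h4
    simpa using h4
  have hcop : Nat.Coprime m (2 ^ s) := (Nat.Coprime.pow_right s (Nat.coprime_two_right.mpr hm))
  have hcopZ : IsCoprime (m : ℤ) ((2 ^ s : ℕ) : ℤ) := Nat.isCoprime_iff_coprime.mpr hcop
  obtain ⟨a, b, hab⟩ := hcopZ
  have h5 : ((a * m + b * ((2 ^ s : ℕ) : ℤ) : ℤ) : R) * z = 0 := by
    push_cast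
    push_cast at h3
    rw [add_mul, mul_assoc, hmz, mul_assoc, h3, mul_zero, mul_zero, add_zero]
  rw [hab] at h5
  simpa using h5

/-- The odd part: an involution is central there. -/
theorem odd_part {R : Type u} [Ring R] (h2 : ∀ v : Rˣ, ∃ s : ℕ, v ^ (2 ^ s) = 1) {m : ℕ}
    (hm : Odd m) {f g : R} (hf : f * f = f) (hfc : ∀ r, f * r = r * f) (hmf : (m : R) * f = 0)
    (hg : g * g = 1) (r : R) : f * (g * r) = f * (r * g) := by
  obtain ⟨t, ht⟩ := hm
  -- `c = (m + 1) / 2 = t + 1`
  set c : R := ((t + 1 : ℕ) : R) with hc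
  have hcc : ∀ r, c * r = r * c := fun r => (Nat.cast_commute _ r)
  have h2c : 2 * c * f = f := by
    have h3 : 2 * c = (m : R) + 1 := by rw [hc, ht]; push_cast; noncomm_ring
    rw [h3, add_mul, hmf, zero_add, one_mul]
  set E : R := f * c * (1 + g) with hE
  have hEE : E * E = E := by
    have h3 : (1 + g) * (1 + g) = 2 * (1 + g) := by
      have : (1 + g) * (1 + g) = 1 + 2 * g + g * g := by noncomm_ring
      rw [this, hg]; noncomm_ring
    calc E * E = f * c * ((1 + g) * (f * c)) * (1 + g) := by rw [hE]; noncomm_ring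
      _ = f * c * ((f * c) * (1 + g)) * (1 + g) := by
          have : (1 + g) * (f * c) = (f * c) * (1 + g) := by
            rw [← mul_assoc, ← hfc, mul_assoc, ← hcc, ← mul_assoc]
          rw [this]
      _ = f * c * (f * c) * ((1 + g) * (1 + g)) := by noncomm_ring
      _ = f * c * (f * c) * (2 * (1 + g)) := by rw [h3]
      _ = (f * f) * c * (2 * c) * (1 + g) := by
          have h5 : f * c * (f * c) = f * f * c * c := by
            rw [mul_assoc f c, ← mul_assoc c f c, hcc f]; noncomm_ring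
          rw [h5]; noncomm_ring
      _ = c * (2 * c * f) * (1 + g) := by
          rw [hf]
          have : f * c * (2 * c) = c * (2 * c * f) := by
            rw [hfc (c), mul_assoc, hfc (2 * c)]
          rw [this]
      _ = E := by rw [h2c, hE, hfc c]
  have hmE : ∀ x y : R, (m : R) * (x * E * y) = 0 := by
    intro x y
    have h3 : (m : R) * (x * E * y) = x * (((m : R) * f) * c * (1 + g)) * y := by
      rw [hE]
      have : (m : R) * (x * (f * c * (1 + g)) * y) = ((m : R) * x) * (f * c * (1 + g)) * y := by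
        noncomm_ring
      rw [this, Nat.cast_comm]
      noncomm_ring
    rw [h3, hmf]; noncomm_ring
  have h4 : E * r * (1 - E) = 0 := by
    apply sq_zero h2 ⟨t, ht⟩
    · have : E * r * (1 - E) * (E * r * (1 - E)) = E * r * (E - E * E) * r * (1 - E) := by
        noncomm_ring
      rw [this, hEE]; noncomm_ring
    · have := hmE 1 (r * (1 - E))
      rw [one_mul, ← mul_assoc E] at this
      exact this
  have h5 : (1 - E) * r * E = 0 := by
    apply sq_zero h2 ⟨t, ht⟩
    · have : (1 - E) * r * E * ((1 - E) * r * E) = (1 - E) * r * (E - E * E) * r * E := by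
        noncomm_ring
      rw [this, hEE]; noncomm_ring
    · have := hmE ((1 - E) * r) 1
      rw [mul_one] at this
      exact this
  have h6 : E * r = r * E := by
    have h7 : E * r = E * r * E := by
      have : E * r * (1 - E) = E * r - E * r * E := by noncomm_ring
      rw [this] at h4; exact sub_eq_zero.mp h4
    have h8 : r * E = E * r * E := by
      have : (1 - E) * r * E = r * E - E * r * E := by noncomm_ring
      rw [this] at h5; exact sub_eq_zero.mp h5
    rw [h7, h8]
  -- `f g = 2 E - f`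
  have h9 : f * g = 2 * E - f := by
    have h10 : 2 * E = (2 * c * f) * (1 + g) := by
      rw [hE, hfc c]; noncomm_ring
    rw [h10, h2c]; noncomm_ring
  calc f * (g * r) = (f * g) * r := by rw [mul_assoc]
    _ = 2 * (E * r) - f * r := by rw [h9]; noncomm_ring
    _ = 2 * (r * E) - r * f := by rw [h6, hfc r]
    _ = r * (2 * E - f) := by noncomm_ring
    _ = r * (f * g) := by rw [h9]
    _ = f * (r * g) := by rw [← mul_assoc, ← hfc, mul_assoc]

/-- The ideal of integer polynomials `p` with `e * p(U) = 0`, for a central element `e`. -/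
def killIdeal {R : Type u} [Ring R] (e U : R) (he : ∀ r, e * r = r * e) : Ideal ℤ[X] where
  carrier := {p | e * aeval U p = 0}
  add_mem' := by
    intro p q hp hq
    simp only [Set.mem_ofPred_eq] at hp hq ⊢
    rw [map_add, mul_add, hp, hq, add_zero]
  zero_mem' := by simp
  smul_mem' := by
    intro c p hp
    simp only [Set.mem_ofPred_eq] at hp ⊢
    rw [smul_eq_mul, map_mul, ← mul_assoc, he, mul_assoc, hp, mul_zero]

theorem mem_killIdeal {R : Type u} [Ring R] (e U : R) (he : ∀ r, e * r = r * e) (p : ℤ[X]) :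
    p ∈ killIdeal e U he ↔ e * aeval U p = 0 := Iff.rfl

theorem core {R : Type u} [Ring R] [Finite R] {H : Type v} [Group H] (K : ℕ) (hK : 4 ≤ K)
    (hH : IsPGroup 2 H) (φ : Rˣ ≃* DihedralGroup (2 ^ K) × H) : False := by
  classical
  -- every unit has `2`-power order
  have h2 : ∀ v : Rˣ, ∃ s : ℕ, v ^ (2 ^ s) = 1 := by
    intro v
    obtain ⟨s, hs⟩ := hH (φ v).2
    refine ⟨(K + 1) + s, ?_⟩
    apply φ.injective
    rw [map_pow, map_one]
    have h3 : (φ v).1 ^ (2 ^ (K + 1)) = 1 := by
      have := pow_card_eq_one' (x := (φ v).1)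
      rwa [DihedralGroup.nat_card, ← pow_succ'] at this
    refine Prod.ext ?_ ?_
    · rw [Prod.pow_fst, pow_add, pow_mul, h3, one_pow]; rfl
    · rw [Prod.pow_snd, pow_add, mul_comm, pow_mul, hs, one_pow]; rfl
  -- the idempotents
  obtain ⟨n, hn⟩ := CharP.exists R
  have hn0 : n ≠ 0 := CharP.char_ne_zero_of_finite R n
  obtain ⟨a, m, hmodd, hnm⟩ := Nat.exists_eq_two_pow_mul_odd hn0
  have hcop : IsCoprime (((2 ^ a : ℕ) : ℤ)) (m : ℤ) :=
    Nat.isCoprime_iff_coprime.mpr (Nat.Coprime.pow_left a (Nat.coprime_two_left.mpr hmodd))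
  obtain ⟨x, z, hxz⟩ := hcop
  have hn' : ((2 ^ a : ℕ) : R) * (m : R) = 0 := by
    rw [← Nat.cast_mul, ← hnm]; exact CharP.cast_eq_zero R n
  set e : R := ((z * m : ℤ) : R) with he
  set f : R := ((x * ((2 ^ a : ℕ) : ℤ) : ℤ) : R) with hf
  have hec : ∀ r, e * r = r * e := fun r => Int.cast_commute _ r
  have hfc : ∀ r, f * r = r * f := fun r => Int.cast_commute _ r
  have hef : f + e = 1 := by rw [he, hf, ← Int.cast_add, hxz, Int.cast_one]
  have h2e : ((2 ^ a : ℕ) : R) * e = 0 := by
    rw [he, Int.cast_mul, Int.cast_natCast, ← mul_assoc, (Nat.cast_commute (2 ^ a) (z : R)).eq,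
      mul_assoc, hn', mul_zero]
  have hmf : (m : R) * f = 0 := by
    rw [hf, Int.cast_mul, Int.cast_natCast, ← mul_assoc, (Nat.cast_commute m (x : R)).eq,
      mul_assoc, (Nat.cast_commute m ((2 ^ a : ℕ) : R)).eq, hn', mul_zero]
  have hfe : f * e = 0 := by
    rw [he, Int.cast_mul, Int.cast_natCast, ← mul_assoc, hfc, mul_assoc, hfc, hmf, mul_zero]
  have hff : f * f = f := by
    have : f * (f + e) = f := by rw [hef, mul_one]
    rwa [mul_add, hfe, add_zero] at this
  have hee : e * e = e := by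
    have : (f + e) * e = e := by rw [hef, one_mul]
    rwa [add_mul, hfe, zero_add] at this
  -- the generators of the dihedral group
  set Uu : Rˣ := φ.symm (DihedralGroup.r 1, 1) with hUu
  set gu : Rˣ := φ.symm (DihedralGroup.sr 0, 1) with hgu
  have hφU : φ Uu = (DihedralGroup.r 1, 1) := by simp [hUu]
  have hφg : φ gu = (DihedralGroup.sr 0, 1) := by simp [hgu]
  have hgg : gu * gu = 1 := by
    apply φ.injective
    rw [map_mul, hφg, map_one]
    simp
  have hgU : gu * Uu = Uu⁻¹ * gu := by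
    apply φ.injective
    rw [map_mul, map_mul, map_inv, hφg, hφU]
    simp
  have hUN : Uu ^ (2 ^ K) = 1 := by
    apply φ.injective
    rw [map_pow, hφU, map_one]
    refine Prod.ext ?_ ?_
    · exact DihedralGroup.r_one_pow_n
    · simp
  have hcast : ∀ k : ℕ, 0 < k → k < 2 ^ K → ((k : ℕ) : ZMod (2 ^ K)) ≠ 0 := by
    intro k hk hk2 h0
    rw [ZMod.natCast_eq_zero_iff] at h0
    exact absurd (Nat.le_of_dvd hk h0) (by omega)
  have h16 : 16 ≤ 2 ^ K := by
    calc 16 = 2 ^ 4 := by norm_num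
      _ ≤ 2 ^ K := Nat.pow_le_pow_right (by norm_num) hK
  have h20 : (2 : ZMod (2 ^ K)) ≠ 0 := by
    have := hcast 2 (by norm_num) (by omega)
    exact_mod_cast this
  -- the elements of the ring
  set U : R := (Uu : R) with hU
  set V : R := ((Uu⁻¹ : Rˣ) : R) with hV
  set g : R := (gu : R) with hg
  have hUV : U * V = 1 := Uu.mul_inv
  have hVU : V * U = 1 := Uu.inv_mul
  have hg2 : g * g = 1 := by
    have := congrArg (fun x : Rˣ => (x : R)) hgg
    simpa using this
  have hgUV : g * U = V * g := by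
    have := congrArg (fun x : Rˣ => (x : R)) hgU
    simpa using this
  have hU1 : U ^ (2 ^ K) = 1 := by
    have := congrArg (fun x : Rˣ => (x : R)) hUN
    simpa using this
  have hgUne : g * U ≠ U * g := by
    intro h
    have h3 : gu * Uu = Uu * gu := Units.ext (by simpa using h)
    have h4 := congrArg φ h3
    rw [map_mul, map_mul, hφg, hφU] at h4
    have h5 := congrArg Prod.fst h4
    simp only [Prod.mk_mul_mk, DihedralGroup.sr_mul_r, DihedralGroup.r_mul_sr,
      DihedralGroup.sr.injEq] at h5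
    apply h20
    linear_combination h5
  -- odd part
  have hfU : f * (U ^ 2 - 1) = 0 := by
    have h3 := odd_part h2 hmodd hff hfc hmf hg2 U
    rw [hgUV] at h3
    have h4 : f * (V * g) * g = f * (U * g) * g := by rw [h3]
    have h5 : f * V = f * U := by
      have h6 : ∀ W : R, f * (W * g) * g = f * W := by
        intro W
        rw [mul_assoc, mul_assoc W, hg2, mul_one]
      rwa [h6, h6] at h4
    have h7 : f * V * U = f * U * U := by rw [h5]
    rw [mul_assoc, hVU, mul_one] at h7
    rw [mul_sub, mul_one, pow_two, ← mul_assoc, ← h7, sub_self]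
  -- nilpotency of `2 e`
  have hnil2e : IsNilpotent (2 * e) := by
    refine ⟨a + 1, ?_⟩
    have h3 : (2 * e) ^ (a + 1) = (2 ^ (a + 1) : R) * e ^ (a + 1) :=
      (Commute.ofNat_left 2 e).mul_pow (a + 1)
    have h4 : e ^ (a + 1) = e := by
      have : IsIdempotentElem e := hee
      exact this.pow_succ_eq a
    rw [h3, h4, pow_succ', mul_assoc]
    have h5 : (2 : R) ^ a * e = 0 := by
      have := h2e
      push_cast at this
      exact this
    rw [h5, mul_zero]
  have h2ec : ∀ r, (2 * e) * r = r * (2 * e) := by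
    intro r
    rw [mul_assoc, hec, ← mul_assoc, ← mul_assoc, (Commute.ofNat_left 2 r).eq]
  -- first unit
  have hkey1 : 2 * e * (U ^ 2 - 1) = 0 := by
    have hu1 : IsUnit (1 + 2 * e * g) := by
      apply IsNilpotent.isUnit_one_add
      exact Commute.isNilpotent_mul_right (h2ec g) hnil2e
    obtain ⟨v, hv⟩ := hu1
    have hvg : v * gu = gu * v := by
      apply Units.ext
      rw [Units.val_mul, Units.val_mul, hv]
      show (1 + 2 * e * g) * g = g * (1 + 2 * e * g)
      rw [add_mul, mul_add, one_mul, mul_one, ← mul_assoc, ← h2ec g]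
    have hvU : (v : R) * U = U * v := by
      rcases hd : (φ v).1 with i | i
      · have h3 : v * Uu = Uu * v := by
          apply φ.injective
          rw [map_mul, map_mul, hφU]
          refine Prod.ext ?_ ?_
          · simp only [Prod.fst_mul, hd, DihedralGroup.r_mul_r]
            rw [add_comm]
          · simp
        have := congrArg (fun x : Rˣ => (x : R)) h3
        simpa using this
      · exfalso
        have h3 : (gu * v) * Uu = Uu * (gu * v) := by
          apply φ.injective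
          simp only [map_mul, hφU, hφg]
          refine Prod.ext ?_ ?_
          · simp only [Prod.fst_mul, hd, DihedralGroup.r_mul_r, DihedralGroup.sr_mul_sr]
            rw [add_comm]
          · simp
        have h4 := congrArg (fun x : Rˣ => (x : R)) h3
        simp only [Units.val_mul, hv] at h4
        change (g * (1 + 2 * e * g)) * U = U * (g * (1 + 2 * e * g)) at h4
        have h5 : g * (1 + 2 * e * g) = g + 2 * e := by
          rw [mul_add, mul_one, ← mul_assoc, ← h2ec g, mul_assoc, hg2, mul_one]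
        rw [h5, add_mul, mul_add, h2ec U] at h4
        exact hgUne (add_right_cancel h4)
    rw [hv, add_mul, mul_add, one_mul, mul_one, ← mul_assoc U, ← h2ec U] at hvU
    have h3 : 2 * e * (g * U) = 2 * e * (U * g) := by
      have := add_left_cancel hvU
      rw [mul_assoc, mul_assoc (2 * e)] at this
      exact this
    rw [hgUV] at h3
    have h4 : 2 * e * (V * g) * g = 2 * e * (U * g) * g := by rw [h3]
    have h6 : ∀ W : R, 2 * e * (W * g) * g = 2 * e * W := by
      intro W
      rw [mul_assoc, mul_assoc W, hg2, mul_one]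
    rw [h6, h6] at h4
    have h7 : 2 * e * V * U = 2 * e * U * U := by rw [h4]
    rw [mul_assoc _ V, hVU, mul_one] at h7
    rw [mul_sub, mul_one, pow_two, ← mul_assoc, ← h7, sub_self]
  -- the commutative ring
  set I : Ideal ℤ[X] := killIdeal e U hec with hI
  let u : ℤ[X] ⧸ I := Ideal.Quotient.mk I X
  have hmem : ∀ p : ℤ[X], Ideal.Quotient.mk I p = 0 ↔ e * aeval U p = 0 := by
    intro p
    rw [Ideal.Quotient.eq_zero_iff_mem]
    exact mem_killIdeal e U hec p
  have hT2 : IsNilpotent (2 : ℤ[X] ⧸ I) := by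
    refine ⟨a, ?_⟩
    have h3 : (2 : ℤ[X] ⧸ I) ^ a = Ideal.Quotient.mk I (2 ^ a) := by
      rw [map_pow, map_ofNat]
    rw [h3, hmem]
    rw [hec]
    have := h2e
    push_cast at this
    rw [map_pow, map_ofNat]
    exact this
  have hTy : 2 * (u ^ 2 - 1) = 0 := by
    have h3 : 2 * (u ^ 2 - 1) = Ideal.Quotient.mk I (2 * (X ^ 2 - 1)) := by
      rw [map_mul, map_ofNat]; simp [u]
    rw [h3, hmem]
    have h4 : aeval U (2 * (X ^ 2 - 1) : ℤ[X]) = 2 * (U ^ 2 - 1) := by
      rw [map_mul, map_ofNat]; simp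
    rw [h4, ← mul_assoc, hec, hkey1]
  have hTU : u ^ (2 ^ (K - 1 + 1)) = 1 := by
    rw [Nat.sub_add_cancel (by omega)]
    rw [← sub_eq_zero]
    have h3 : u ^ (2 ^ K) - 1 = Ideal.Quotient.mk I (X ^ (2 ^ K) - 1) := by simp [u]
    rw [h3, hmem]
    simp [hU1]
  have hTx : IsNilpotent (u - 1) := nil_x u (K - 1) hT2 hTy hTU
  have hTnil : IsNilpotent (u + u ^ 3) := by
    have h3 : u + u ^ 3 = 2 + (u - 1) * (u ^ 2 + u + 2) := by ring
    rw [h3]
    exact (Commute.all _ _).isNilpotent_add hT2 ((Commute.all _ _).isNilpotent_mul_right hTx)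
  have hnilR : IsNilpotent (e * (U + U ^ 3)) := by
    obtain ⟨k, hk⟩ := hTnil
    have h3 : (u + u ^ 3) ^ k = Ideal.Quotient.mk I ((X + X ^ 3) ^ k) := by simp [u]
    rw [h3, hmem] at hk
    have h4 : aeval U ((X + X ^ 3) ^ k : ℤ[X]) = (U + U ^ 3) ^ k := by simp
    rw [h4] at hk
    refine ⟨k + 1, ?_⟩
    have h5 : (e * (U + U ^ 3)) ^ (k + 1) = e ^ (k + 1) * (U + U ^ 3) ^ (k + 1) :=
      (show Commute e (U + U ^ 3) from hec _).mul_pow (k + 1)
    have h6 : e ^ (k + 1) = e := by
      have : IsIdempotentElem e := hee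
      exact this.pow_succ_eq k
    rw [h5, h6, pow_succ, ← mul_assoc, hk, zero_mul]
  -- second unit
  obtain ⟨v, hv⟩ := hnilR.isUnit_one_add
  have hvU : v * Uu = Uu * v := by
    apply Units.ext
    rw [Units.val_mul, Units.val_mul, hv]
    show (1 + e * (U + U ^ 3)) * U = U * (1 + e * (U + U ^ 3))
    have h3 : (1 + e * (U + U ^ 3)) * U = U + e * U * (U + U ^ 3) := by noncomm_ring
    rw [h3, hec U]
    noncomm_ring
  obtain ⟨j, hj⟩ : ∃ j : ℕ, Uu ^ (2 * j) * (gu * v * gu) = v := by
    rcases hd : (φ v).1 with i | i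
    · refine ⟨i.val, ?_⟩
      apply φ.injective
      simp only [map_mul, map_pow, hφU, hφg]
      refine Prod.ext ?_ ?_
      · simp only [Prod.fst_mul, Prod.pow_fst, hd, DihedralGroup.r_one_pow,
          DihedralGroup.sr_mul_r, DihedralGroup.sr_mul_sr, DihedralGroup.r_mul_r]
        congr 1
        push_cast
        rw [ZMod.natCast_zmod_val]
        ring
      · simp
    · exfalso
      have h3 := congrArg φ hvU
      rw [map_mul, map_mul, hφU] at h3
      have h4 := congrArg Prod.fst h3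
      simp only [Prod.fst_mul, hd, DihedralGroup.sr_mul_r, DihedralGroup.r_mul_sr,
        DihedralGroup.sr.injEq] at h4
      apply h20
      linear_combination h4
  have hj2 := congrArg (fun x : Rˣ => (x : R)) hj
  simp only [Units.val_mul, Units.val_pow_eq_pow_val, hv] at hj2
  change U ^ (2 * j) * (g * (1 + e * (U + U ^ 3)) * g) = 1 + e * (U + U ^ 3) at hj2
  have hgUg : g * U * g = V := by rw [hgUV, mul_assoc, hg2, mul_one]
  have hgU3g : g * U ^ 3 * g = V ^ 3 := by
    have h3 : g * U ^ 3 * g = (g * U * g) * (g * U * g) * (g * U * g) := by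
      have h4 : (g * U * g) * (g * U * g) * (g * U * g) =
          g * U * (g * g) * U * (g * g) * U * g := by noncomm_ring
      rw [h4, hg2]; noncomm_ring
    rw [h3, hgUg]; noncomm_ring
  have hconj : g * (1 + e * (U + U ^ 3)) * g = 1 + e * (V + V ^ 3) := by
    rw [← hgU3g, ← hgUg]
    have h3 : g * (1 + e * (U + U ^ 3)) * g = g * g + (g * e) * (U + U ^ 3) * g := by
      noncomm_ring
    rw [h3, hg2, ← hec g]
    noncomm_ring
  rw [hconj] at hj2
  have hV3 : V * U ^ 3 = U ^ 2 := by
    rw [pow_succ' U 2, ← mul_assoc, hVU, one_mul]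
  have hV33 : V ^ 3 * U ^ 3 = 1 := by
    have h3 : V ^ 3 * U ^ 3 = V * (V * (V * U) * U) * U := by noncomm_ring
    rw [h3, hVU, mul_one, hVU, mul_one, hVU]
  have hfinal : e * (U ^ (2 * j) * (U ^ 3 + U ^ 2 + 1)) = e * (U ^ 3 + U ^ 4 + U ^ 6) := by
    have h3 := congrArg (fun x => e * (x * U ^ 3)) hj2
    have h4 : e * (U ^ (2 * j) * (1 + e * (V + V ^ 3)) * U ^ 3) =
        e * (U ^ (2 * j) * (U ^ 3 + U ^ 2 + 1)) := by
      have h5 : e * (U ^ (2 * j) * (1 + e * (V + V ^ 3)) * U ^ 3) =
          e * U ^ (2 * j) * U ^ 3 + (e * U ^ (2 * j)) * e * ((V + V ^ 3) * U ^ 3) := by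
        noncomm_ring
      rw [h5, ← hec (e * U ^ (2 * j)), ← mul_assoc e e, hee, add_mul, hV3, hV33]
      noncomm_ring
    have h6 : e * ((1 + e * (U + U ^ 3)) * U ^ 3) = e * (U ^ 3 + U ^ 4 + U ^ 6) := by
      have h7 : e * ((1 + e * (U + U ^ 3)) * U ^ 3) =
          e * U ^ 3 + (e * e) * ((U + U ^ 3) * U ^ 3) := by noncomm_ring
      rw [h7, hee, add_mul, ← pow_succ', ← pow_add, ← mul_add, ← add_assoc]
    rw [h4, h6] at h3
    exact h3
  have hT : (u ^ (2 * j) - 1) * (1 + u ^ 2 + u ^ 3) = (u ^ 2 - 1) ^ 3 := by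
    have h3 : u ^ (2 * j) * (u ^ 3 + u ^ 2 + 1) - (u ^ 3 + u ^ 4 + u ^ 6) = 0 := by
      have h4 : u ^ (2 * j) * (u ^ 3 + u ^ 2 + 1) - (u ^ 3 + u ^ 4 + u ^ 6) =
          Ideal.Quotient.mk I (X ^ (2 * j) * (X ^ 3 + X ^ 2 + 1) - (X ^ 3 + X ^ 4 + X ^ 6)) := by
        simp [u]
      rw [h4, hmem]
      have h5 : aeval U (X ^ (2 * j) * (X ^ 3 + X ^ 2 + 1) - (X ^ 3 + X ^ 4 + X ^ 6) : ℤ[X]) =
          U ^ (2 * j) * (U ^ 3 + U ^ 2 + 1) - (U ^ 3 + U ^ 4 + U ^ 6) := by simp
      rw [h5, mul_sub, hfinal, sub_self]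
    linear_combination h3 + 2 * u ^ 2 * hTy
  have hT3 := comm_core u (K - 1) j hT2 hTy hTU hT
  have hT8 : u ^ 8 - 1 = 0 := by
    have h3 := one_add_pow hTy 2
    rw [add_sub_cancel] at h3
    norm_num at h3
    have h4 : (u ^ 2 - 1) ^ 4 = 0 := by rw [pow_succ, hT3, zero_mul]
    have h5 : (u ^ 2) ^ 4 = u ^ 8 := by ring
    rw [h4, h5] at h3
    rw [h3]; ring
  have heU : e * (U ^ 8 - 1) = 0 := by
    have h3 : u ^ 8 - 1 = Ideal.Quotient.mk I (X ^ 8 - 1) := by simp [u]
    rw [h3, hmem] at hT8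
    simpa using hT8
  have hfU8 : f * (U ^ 8 - 1) = 0 := by
    have h3 : f * (U ^ 8 - 1) = f * (U ^ 2 - 1) * (U ^ 6 + U ^ 4 + U ^ 2 + 1) := by
      noncomm_ring
    rw [h3, hfU, zero_mul]
  have hU8 : U ^ 8 - 1 = 0 := by
    have h3 : (f + e) * (U ^ 8 - 1) = 0 := by rw [add_mul, hfU8, heU, add_zero]
    rwa [hef, one_mul] at h3
  have hUu8 : Uu ^ 8 = 1 := by
    apply Units.ext
    rw [Units.val_pow_eq_pow_val, Units.val_one]
    exact sub_eq_zero.mp hU8
  have h3 := congrArg φ hUu8
  rw [map_pow, hφU, map_one] at h3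
  have h4 := congrArg Prod.fst h3
  rw [Prod.pow_fst] at h4
  simp only [DihedralGroup.r_one_pow, Prod.fst_one, DihedralGroup.one_def,
    DihedralGroup.r.injEq] at h4
  exact hcast 8 (by norm_num) (by omega) h4

/-- **Dihedral `2`-groups of order at least `32` are not direct factors of unit groups.**  For every
`K ≥ 4` the dihedral group `G = DihedralGroup (2 ^ K)` of order `2 ^ (K + 1)` is a nonabelian
`2`-group, it is not isomorphic to the unit group of a finite ring, and for every `2`-group `H` the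
direct product `G × H` is not isomorphic to the unit group of a finite ring either.  (Rings are
associative with identity and not necessarily commutative.) -/
theorem result (K : ℕ) (hK : 4 ≤ K) :
    Nat.card (DihedralGroup (2 ^ K)) = 2 ^ (K + 1) ∧
      (∃ a b : DihedralGroup (2 ^ K), a * b ≠ b * a) ∧
      (∀ (R : Type u) [Ring R] [Finite R], IsEmpty (Rˣ ≃* DihedralGroup (2 ^ K))) ∧
      ∀ (H : Type v) [Group H], IsPGroup 2 H →
        ∀ (R : Type u) [Ring R] [Finite R], IsEmpty (Rˣ ≃* DihedralGroup (2 ^ K) × H) := by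
  have h16 : 16 ≤ 2 ^ K := by
    calc 16 = 2 ^ 4 := by norm_num
      _ ≤ 2 ^ K := Nat.pow_le_pow_right (by norm_num) hK
  refine ⟨?_, ?_, ?_, ?_⟩
  · rw [DihedralGroup.nat_card, ← pow_succ']
  · refine ⟨DihedralGroup.r 1, DihedralGroup.sr 0, ?_⟩
    intro h
    simp only [DihedralGroup.r_mul_sr, DihedralGroup.sr_mul_r, DihedralGroup.sr.injEq] at h
    have h2 : ((2 : ℕ) : ZMod (2 ^ K)) = 0 := by
      push_cast
      linear_combination -h
    rw [ZMod.natCast_eq_zero_iff] at h2
    exact absurd (Nat.le_of_dvd (by norm_num) h2) (by omega)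
  · intro R _ _
    refine ⟨fun φ => ?_⟩
    have hH : IsPGroup 2 (Multiplicative (ZMod 1)) := by
      intro g
      exact ⟨0, Subsingleton.elim _ _⟩
    let ψ : DihedralGroup (2 ^ K) ≃* DihedralGroup (2 ^ K) × Multiplicative (ZMod 1) :=
      { toFun := fun x => (x, 1)
        invFun := fun x => x.1
        left_inv := fun _ => rfl
        right_inv := fun x => Prod.ext rfl (Subsingleton.elim _ _)
        map_mul' := fun x y => by simp }
    exact core K hK hH (φ.trans ψ)
  · intro H _ hH R _ _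
    exact ⟨fun φ => core K hK hH φ⟩

end Pool.Agent.Results.MP_c51eea_al.DihedralNoFactor
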